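import Pool.Agent.X229.RS.GStep
import Pool.Agent.Y177.Dg.Grd

/-!
MP_b525bf_ag: resolution of the iterated quotients of (possibly singular) affine varieties of
characteristic `p` by finite subgroup schemes of the additive group, automorphisms of order `p`
and `p`-closed derivations, followed by a quotient by a finite diagonalizable group scheme.
-/

set_option autoImplicit false

open AlgebraicGeometry CategoryTheory Pool.Agent.H920R2 Pool.Agent.H519R3.RS Pool.Agent.X229.RS
  Pool.Agent.Y177.Dg

universe u

namespace Pool.Agent.Results.MP_b525bf_ag.GroupSchemeTowers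

/-- The structure morphism of the spectrum of a subalgebra. -/
noncomputable def str {k B : Type u} [Field k] [CommRing B] [Algebra k B] (C : Subalgebra k B) :
    Spec (CommRingCat.of C) ⟶ Spec (CommRingCat.of k) :=
  Spec.map (CommRingCat.ofHom (algebraMap k C))

/-- Let `B` be a domain over a field `k` of characteristic `p` and `F` a decreasing multiplicative
filtration of `B` by ideals, with `F 0 = B` and `F 1 ≠ 0`, such that

* either the weighted blowup of `F` is smooth (`Good`): the extended Rees algebra of `F`, the sum
  of the `F d T ^ d` for `d > 0` and of the `B T ^ d` for `d ≤ 0`, is of finite type and its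
  localizations at the nonzero elements `b T ^ d` with `d > 0` are smooth over `k` (here `B` may
  be singular),
* or `B` is smooth and `F` is a regular weighted centre.

Let `B = C 0 ⊇ C 1 ⊇ ... ⊇ C n` be a chain of subalgebras such that `C (i + 1)` is

* the ring of invariants of an automorphism `σ` of `C i` with `σ ^ p = 1` (`SStep`), or
* the ring of constants of a `p`-closed derivation of `C i` (`DStep`), or
* the ring of invariants of `C i` under a finite subgroup scheme `α_(p ^ r) × A` (`A` a finite
  additive subgroup of `k`, `r ≥ 0` arbitrary) of the additive group, for an action of the whole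
  additive group on `Spec (C i)` given by a coaction `ρ : C i → C i [X]` (`GStep`),

which raises the weights of the filtration induced by `F` on `C i`, has its fixed points in the
centre and has a leading form without zeros outside the vertex. Let further a finite diagonalizable
group scheme act on `Spec (C n)`, that is, let `C n` be graded by a finite abelian group `Λ`, such
that the induced filtration is homogeneous.

Then the quotient, the spectrum of the part of degree zero of `C n`, is a variety which has a
resolution of singularities. -/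
theorem result (p : ℕ) [Fact p.Prime] (k : Type u) [Field k] [CharP k p] (B : Type u)
    [CommRing B] [IsDomain B] [Algebra k B] (F : ℕ → Ideal B) (hF : IsFilt F) (hne : F 1 ≠ ⊥)
    (hG : Good k hF ∨ (Algebra.Smooth k B ∧ RegularWeightedCentre k F))
    (n : ℕ) (C : ℕ → Subalgebra k B) (hC0 : C 0 = ⊤)
    (hC : ∀ i < n, SStep p F (C i) (C (i + 1)) ∨ DStep p F (C i) (C (i + 1)) ∨
      GStep p F (C i) (C (i + 1)))
    (Λ : Type) [AddCommGroup Λ] [Finite Λ] [DecidableEq Λ] (𝒜 : Λ → Submodule k (C n))
    [GradedAlgebra 𝒜] (hom : ∀ d, (restr F (C n) d).IsHomogeneous 𝒜) :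
    ∃ R : Subalgebra k B, (∀ b, b ∈ R ↔ ∃ h : b ∈ C n, (⟨b, h⟩ : C n) ∈ 𝒜 0) ∧
      IsVariety (str R) ∧
      ∃ (Y : Scheme.{u}) (π : Y ⟶ Spec (CommRingCat.of R)),
        AlgebraicGeometry.IsIntegral Y ∧ AlgebraicGeometry.IsProper π ∧
        AlgebraicGeometry.Smooth (π ≫ str R) ∧
        ∃ U : (Spec (CommRingCat.of R)).Opens,
          Dense (U : Set (Spec (CommRingCat.of R))) ∧ IsIso (π ∣_ U) := by
  have hp : p.Prime := Fact.out
  have hpk : (p : k) = 0 := CharP.cast_eq_zero k p
  have hG' : Good k hF := by
    rcases hG with h | ⟨h1, h2⟩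
    · exact h
    · exact good_of_centre hF h2
  have key : ∀ i ≤ n, Good k (isFilt_restr hF (C i)) ∧ restr F (C i) 1 ≠ ⊥ := by
    intro i
    induction i with
    | zero => intro _; exact good_top hF hG' hne hC0
    | succ i ih =>
      intro hi
      obtain ⟨h1, h2⟩ := ih (by omega)
      rcases hC i (by omega) with h | h | h
      · exact good_sstep hp hpk hF h h1 h2
      · exact good_dstep hp hpk hF h h1 h2
      · exact good_gstep hF h h1 h2
  obtain ⟨h1, h2⟩ := key n le_rfl
  have _ : Fintype Λ := Fintype.ofFinite Λ
  let R : Subalgebra k B := (zr (pg_grd 𝒜)).map (C n).val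
  have hR : ∀ b, b ∈ R ↔ ∃ h : b ∈ C n, (⟨b, h⟩ : C n) ∈ 𝒜 0 := by
    intro b
    constructor
    · rintro ⟨x, hx, rfl⟩
      exact ⟨x.2, (proj_eq_iff 𝒜 0 x).1 hx⟩
    · rintro ⟨h, h'⟩
      exact ⟨⟨b, h⟩, (proj_eq_iff 𝒜 0 _).2 h', rfl⟩
  have h3 := hasResolution_zr (pg_grd 𝒜) (isFilt_restr hF (C n))
    (fun d c hc i => hom d i hc) h1 h2
  have hft : Algebra.FiniteType k (C n) := by
    have hinj : Function.Injective (IsScalarTower.toAlgHom k (C n) (FractionRing (C n))) :=
      IsFractionRing.injective (C n) (FractionRing (C n))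
    exact finiteType_goodE _ (isFilt_restr hF (C n)) hinj ((good_iff _ _ hinj).1 h1)
  have hft' := finiteType_zr (pg_grd 𝒜)
  let e : zr (pg_grd 𝒜) ≃ₐ[k] R :=
    AlgEquiv.ofBijective
      (((C n).val.comp (zr (pg_grd 𝒜)).val).codRestrict R fun x => ⟨x, x.2, rfl⟩)
      ⟨fun x y hxy => by
        apply Subtype.ext
        apply Subtype.ext
        exact congrArg (fun z : R => (z : B)) hxy, fun y => by
        obtain ⟨x, hx, hxy⟩ := y.2
        exact ⟨⟨x, hx⟩, Subtype.ext hxy⟩⟩
  have hft'' : Algebra.FiniteType k R := Algebra.FiniteType.equiv hft' e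
  exact ⟨R, hR, isVariety_spec, hasResolution_congr e h3⟩

end Pool.Agent.Results.MP_b525bf_ag.GroupSchemeTowers
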