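import Pool.Agent.X326.AD.Fin

/-!
# MP_b525bf_ag: resolution of singularities of `A`-discriminants in characteristic `p`

The closure of the set of the coefficient vectors `x` of the polynomials `∑ i, x i * t ^ a i` (with
fixed exponents) which have a singular point in the torus is a variety with a resolution of
singularities, in all dimensions and all characteristics `p`, if the exponents generate the lattice
and some such polynomial has a nondegenerate singular point.

The proof: the variety is parametrized by `x i = z i * s ^ a i`, where `z` runs through a linear space
and `s` through the torus (Horn, Kapranov). Choose a polynomial `F` of minimal degree which vanishes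
on the variety. As `k` is perfect, its derivatives do not all vanish on the variety, and the
derivatives of the parametrization show that the gradient of `F` at `x` is proportional to
`s ^ (-a i)`, if the Hessian matrix is nondegenerate. So the parametrization is birational, the
function field is generated by linear forms and independent variables, and the
coordinates are products of them. Then the theorem of the starting file
MP_b525bf_ag.ProductsOfLinearForms is applied.
-/

set_option autoImplicit false

open AlgebraicGeometry CategoryTheory MvPolynomial

universe u

namespace Pool.Agent.Results.MP_b525bf_ag.ADiscriminants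

/-- The polynomial `∑ i, x i * t ^ a i` in the variables `t 1, ..., t n`. -/
noncomputable def polynomial {R : Type u} [Field R] {m n : ℕ} (a : Fin m → Fin n → ℕ)
    (x : Fin m → R) : MvPolynomial (Fin n) R :=
  ∑ i, C (x i) * ∏ j, X j ^ a i j

/-- The set of the coefficient vectors `x`, over the algebraic closure of `k`, such that the
polynomial `∑ i, x i * t ^ a i` has a singular zero in the torus. -/
def singularSet (k : Type u) [Field k] {m n : ℕ} (a : Fin m → Fin n → ℕ) :
    Set (Fin m → AlgebraicClosure k) :=
  {x | ∃ t : Fin n → AlgebraicClosure k, (∀ j, t j ≠ 0) ∧ eval t (polynomial a x) = 0 ∧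
    ∀ j, eval t (pderiv j (polynomial a x)) = 0}

/-- Let `k` be a perfect field of characteristic `p`, and let `a 1, ..., a m ∈ ℕ ^ n` be exponent
vectors, `m ≥ 1`, whose differences generate `ℤ ^ n`. Suppose that some polynomial
`f = ∑ i, z i * t ^ a i` over `k` has a nondegenerate singular zero at `(1, ..., 1)`: `f` and
its derivatives `t j * ∂ f / ∂ t j` vanish there and the Hessian matrix, with the entries
`∑ i, a i j * a i l * z i`, is nonsingular. Then the `A`-discriminantal variety, the closure in the
affine space of the set of all coefficient vectors `x` such that `∑ i, x i * t ^ a i` has a singular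
zero in the torus (`Spec` of the quotient of `k[x 1, ..., x m]` by the ideal of the polynomials
which vanish on this set), is a variety which has a resolution of singularities. -/
theorem result (p : ℕ) [Fact p.Prime] (k : Type u) [Field k] [PerfectField k] [CharP k p]
    (m n : ℕ) (hm : 0 < m) (a : Fin m → Fin n → ℕ)
    (ha : AddSubgroup.closure {e : Fin n → ℤ | ∃ i l, e = fun j => (a i j : ℤ) - a l j} = ⊤)
    (z : Fin m → k) (hz : ∑ i, z i = 0) (hz' : ∀ j, ∑ i, (a i j : k) * z i = 0)
    (hH : (Matrix.of fun j l => ∑ i, (a i j : k) * a i l * z i).det ≠ 0) :
    Pool.Agent.W558.IsResolvableVariety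
      (X := Spec (CommRingCat.of (MvPolynomial (Fin m) k ⧸ vanishingIdeal k (singularSet k a))))
      (Spec.map (CommRingCat.ofHom (algebraMap k _))) := by
  have h2 : singularSet k a = Pool.Agent.X326.AD.SingSet k a :=
    (Pool.Agent.X326.AD.singSet_eq a).symm
  rw [h2]
  exact Pool.Agent.X326.AD.main a p hm (z₀ := z) ⟨hz, hz'⟩ hH ha

end Pool.Agent.Results.MP_b525bf_ag.ADiscriminants
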