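import Pool.Agent.X229.RS.Gd3

/-!
MP_b525bf_ag: resolution of the quotients of (singular) affine varieties with an action of the
multiplicative group, smooth outside the fixed points of the latter, by finite group schemes
`(α_(p ^ r) × A) ⋊ Spec k[Λ]`.
-/

set_option autoImplicit false

open AlgebraicGeometry CategoryTheory Polynomial Pool.Agent.H920R2

universe u

namespace Pool.Agent.Results.MP_b525bf_ag.ConeQuotients

section

variable {k B : Type u} [Field k] [CommRing B] [Algebra k B]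

/-- `ρ : B → B[t]` is the coaction of an action of the additive group on `Spec B`: with
`ρ b = ∑ D_j b t ^ j` this says `D_0 = id` and `D_i ∘ D_j = (i + j).choose i • D_(i + j)`. -/
structure IsGaAction (ρ : B →ₐ[k] B[X]) : Prop where
  counit : ∀ b, (ρ b).coeff 0 = b
  coassoc : ∀ i j b, (ρ ((ρ b).coeff j)).coeff i = (i + j).choose i • (ρ b).coeff (i + j)

/-- The elements of positive degree vanish on the zeros of the functions in the set `S`. -/
def VanishOn (𝒜 : ℕ → Submodule k B) (S : Set B) : Prop :=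
  ∀ d, 0 < d → ∀ b ∈ 𝒜 d, b ∈ (Ideal.span S).radical

/-- The diagonalizable group scheme `D = Spec k[Λ]` acts on `Spec B` through the grading `ℬ` and
on `𝔾_a` through the character `β`; this action commutes with the action of `𝔾_m` given by the
grading `𝒜`, the action `ρ` of `𝔾_a` is equivariant, and the finite subgroup `A` of
`k = 𝔾_a (k)` is stable. -/
structure IsEquivariant {Λ : Type} [AddCommGroup Λ] [DecidableEq Λ] (𝒜 : ℕ → Submodule k B)
    (ℬ : Λ → Submodule k B) [GradedAlgebra ℬ] (β : Λ) (ρ : B →ₐ[k] B[X]) (A : AddSubgroup k)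
    [Fintype A] : Prop where
  comm : ∀ d, ∀ b ∈ 𝒜 d, ∀ i, GradedAlgebra.proj ℬ i b ∈ 𝒜 d
  hom : ∀ i, ∀ b ∈ ℬ i, ∀ j : ℕ, (ρ b).coeff j ∈ ℬ (i + j • β)
  stable : ∀ j : ℕ, (∏ a : A, (X - C (a : k))).coeff j ≠ 0 → j • β = β

/-- The structure morphism of the spectrum of a subalgebra. -/
noncomputable def str (C : Subalgebra k B) :
    Spec (CommRingCat.of C) ⟶ Spec (CommRingCat.of k) :=
  Spec.map (CommRingCat.ofHom (algebraMap k C))

end

/-- Let `k` be a field of characteristic `p` and let `X = Spec B` be an integral affine variety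
over `k` with an action of the multiplicative group with nonnegative weights (a grading of `B` by
the natural numbers, not concentrated in degree `0`), which is smooth outside the closed subset
`X₀` of fixed points of `𝔾_m`, the common zeros of the elements of positive degree; on `X₀`, `X`
may be singular. Let `ρ` be an action of the additive group on `X`, on which `𝔾_m` acts with a
weight `l > 0`, and `H = α_(p ^ r) × A` a finite subgroup scheme of `𝔾_a`, where
`α_(p ^ r)` is the kernel of `t ↦ t ^ (p ^ r)` and `A` is a finite subgroup of `k`. Suppose that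
the zeros of the vector field `D_1`, given by the coefficient of `t` in `ρ`, and the fixed points
of the elements `a ≠ 0` of `A` lie in `X₀`. Let the finite diagonalizable group scheme
`D = Spec k[Λ]` act on `X`, commuting with `𝔾_m`, and on `𝔾_a` such that `ρ` is equivariant
and `A` is stable.

Then the quotient of `X` by `H ⋊ D`, the spectrum of the ring `R` of the elements of degree `0`
for `Λ`, which are killed by the coefficients of `t ^ j` in `ρ`, `0 < j < p ^ r`, and fixed by `A`,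
is a variety and has a resolution of singularities. -/
theorem result (p : ℕ) [Fact p.Prime] (k : Type u) [Field k] [CharP k p] (B : Type u)
    [CommRing B] [IsDomain B] [Algebra k B] [Algebra.FiniteType k B] (𝒜 : ℕ → Submodule k B)
    [GradedAlgebra 𝒜]
    (hsm : ∀ d, 0 < d → ∀ b ∈ 𝒜 d, b ≠ 0 → Algebra.Smooth k (Localization.Away b))
    (hne : ∃ d, 0 < d ∧ ∃ b ∈ 𝒜 d, b ≠ 0)
    (ρ : B →ₐ[k] B[X]) (hρ : IsGaAction ρ) (l : ℕ) (hl : 0 < l)
    (hρl : ∀ d, ∀ b ∈ 𝒜 d, ∀ j, (ρ b).coeff j ∈ 𝒜 (d + j * l))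
    (hzero : VanishOn 𝒜 (Set.range fun c => (ρ c).coeff 1))
    (r : ℕ) (A : AddSubgroup k) [Fintype A]
    (hfix : ∀ a ∈ A, a ≠ 0 → VanishOn 𝒜 (Set.range fun c => (ρ c).eval (algebraMap k B a) - c))
    (Λ : Type) [AddCommGroup Λ] [Finite Λ] [DecidableEq Λ] (ℬ : Λ → Submodule k B)
    [GradedAlgebra ℬ] (β : Λ) (hℬ : IsEquivariant 𝒜 ℬ β ρ A) :
    ∃ R : Subalgebra k B,
      (∀ b, b ∈ R ↔ b ∈ ℬ 0 ∧ (∀ j, 0 < j → j < p ^ r → (ρ b).coeff j = 0) ∧
        ∀ a ∈ A, (ρ b).eval (algebraMap k B a) = b) ∧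
      IsVariety (str R) ∧
      ∃ (Y : Scheme.{u}) (π : Y ⟶ Spec (CommRingCat.of R)),
        AlgebraicGeometry.IsIntegral Y ∧ AlgebraicGeometry.IsProper π ∧
        AlgebraicGeometry.Smooth (π ≫ str R) ∧
        ∃ U : (Spec (CommRingCat.of R)).Opens,
          Dense (U : Set (Spec (CommRingCat.of R))) ∧ IsIso (π ∣_ U) := by
  have _ : Fintype Λ := Fintype.ofFinite Λ
  let R : Subalgebra k B := Pool.Agent.Y177.Ga.frs ρ (p ^ r) ⊓ Pool.Agent.Y177.Ga.inv ρ A ⊓
    Pool.Agent.Y177.Dg.zr (Pool.Agent.Y177.Dg.pg_grd ℬ)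
  have hR : ∀ b, b ∈ R ↔ b ∈ Pool.Agent.Y177.Ga.frs ρ (p ^ r) ⊓ Pool.Agent.Y177.Ga.inv ρ A ∧
      b ∈ ℬ 0 := by
    intro b
    change b ∈ Pool.Agent.Y177.Ga.frs ρ (p ^ r) ⊓ Pool.Agent.Y177.Ga.inv ρ A ⊓ _ ↔ _
    rw [Algebra.mem_inf, Pool.Agent.Y177.Dg.mem_zr, Pool.Agent.Y177.Dg.proj_eq_iff]
  obtain ⟨h1, h2⟩ := Pool.Agent.X229.RS.graded_main (p := p) hsm hne
    (⟨hρ.counit, hρ.coassoc⟩ : Pool.Agent.Y177.Ga.IsAct ρ) hl hρl hzero r A hfix ℬ hℬ.comm β
    hℬ.hom hℬ.stable R hR
  refine ⟨R, ?_, h1, h2⟩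
  intro b
  rw [hR b, and_comm]
  refine and_congr Iff.rfl (and_congr Iff.rfl ?_)
  refine forall₂_congr fun a _ => ?_
  rw [Pool.Agent.Y177.Ga.sg_apply]

end Pool.Agent.Results.MP_b525bf_ag.ConeQuotients
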