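import Pool.Agent.X229.RS.Cd

/-!
MP_b525bf_ag: resolution of the quotients of affine spaces in characteristic `p` by finite group
schemes of translations, extended by finite diagonalizable group schemes.
-/

set_option autoImplicit false

open AlgebraicGeometry CategoryTheory MvPolynomial Pool.Agent.H920R2

universe u

namespace Pool.Agent.Results.MP_b525bf_ag.TranslationSchemes

variable {k : Type u} [Field k] {n m r : ℕ}

/-- The coaction `Y t ↦ Y t + v t * T`, `X i ↦ X i` of the action of the additive group on the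
affine space with the coordinates `X i`, `Y t` by the translations along the vector `v`, whose
entries `v t` are polynomials in the `X i`. -/
noncomputable def shift (v : Fin m → MvPolynomial (Fin n) k) :
    MvPolynomial (Fin n ⊕ Fin m) k →ₐ[k] Polynomial (MvPolynomial (Fin n ⊕ Fin m) k) :=
  aeval (Sum.elim (fun i => Polynomial.C (X (Sum.inl i)))
    fun t => Polynomial.C (X (Sum.inr t)) + Polynomial.C (rename Sum.inl (v t)) * Polynomial.X)

/-- `R` is the ring of invariants of the group scheme
`(∏ j, α_(p ^ s j) × Γ j) ⋊ Spec k[Λ]`, where the element `t` of the subgroup scheme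
`α_(p ^ s j) × Γ j` of the additive group acts by the translation by `t * v j`, and where the
diagonalizable group scheme `Spec k[Λ]` acts through the weights `α i` of the coordinates `X i` and
`η t` of the coordinates `Y t`. -/
def IsInvariantRing (p : ℕ) (v : Fin r → Fin m → MvPolynomial (Fin n) k) (s : Fin r → ℕ)
    (Γ : Fin r → AddSubgroup k) {Λ : Type} [AddCommGroup Λ] (α : Fin n → Λ) (η : Fin m → Λ)
    (R : Subalgebra k (MvPolynomial (Fin n ⊕ Fin m) k)) : Prop :=
  ∀ b, b ∈ R ↔
    (∀ j, (∀ e, 0 < e → e < p ^ s j → (shift (v j) b).coeff e = 0) ∧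
      ∀ a ∈ Γ j, (shift (v j) b).eval (C a) = b) ∧
    IsWeightedHomogeneous (Sum.elim α η) b 0

/-- The structure morphism of the spectrum of a subalgebra. -/
noncomputable def str (R : Subalgebra k (MvPolynomial (Fin n ⊕ Fin m) k)) :
    Spec (CommRingCat.of R) ⟶ Spec (CommRingCat.of k) :=
  Spec.map (CommRingCat.ofHom (algebraMap k R))

/-- Let `k` be a field of characteristic `p`. Let the coordinates `X i` of affine `n`-space have
weights `w i ≥ 0`, not all `0`, and let `v j = (v j t)`, for `j ≤ r`, be vectors of polynomials in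
the `X i`, such that the entries of `v j` are weighted homogeneous of the same degree `l j > 0`.
Suppose that the vectors `v 1 (z), ..., v r (z)` are linearly independent at every point `z` (with
coordinates in any field) outside the subspace where the coordinates of positive weight vanish. Let
`G j = α_(p ^ s j) × Γ j`, where `α_(p ^ s j)` is the kernel of a power of Frobenius and `Γ j` a
finite subgroup of `k`, be finite subgroup schemes of the additive group, and let the finite
diagonalizable group scheme `D = Spec k[Λ]` act on the affine space through weights `α i`, `η t` of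
the coordinates and on the `j`-th additive group through the character `β j`, such that `v j` is
homogeneous and `Γ j` is stable. Then the quotient of affine `n + m`-space by
`(G 1 × ... × G r) ⋊ D`, where `(a 1, ..., a r)` acts by
`(x, y) ↦ (x, y + a 1 * v 1 (x) + ... + a r * v r (x))`, is a variety and has a resolution of
singularities. -/
theorem result (p : ℕ) [Fact p.Prime] (k : Type u) [Field k] [CharP k p] (n m r : ℕ)
    (w : Fin n → ℕ) (hw : ∃ i, 0 < w i) (l : Fin r → ℕ) (hl : ∀ j, 0 < l j)
    (v : Fin r → Fin m → MvPolynomial (Fin n) k)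
    (hv : ∀ j t, IsWeightedHomogeneous w (v j t) (l j))
    (hV : ∀ (K : Type u) [Field K] [Algebra k K] (z : Fin n → K), (∃ i, 0 < w i ∧ z i ≠ 0) →
      LinearIndependent K (fun j t => aeval z (v j t)))
    (s : Fin r → ℕ) (Γ : Fin r → AddSubgroup k) [∀ j, Fintype (Γ j)]
    (Λ : Type) [AddCommGroup Λ] [Finite Λ] (α : Fin n → Λ) (η : Fin m → Λ) (β : Fin r → Λ)
    (hvΛ : ∀ j t, IsWeightedHomogeneous α (v j t) (η t + β j))
    (hΓ : ∀ j e, (∏ a : Γ j, (Polynomial.X - Polynomial.C (a : k))).coeff e ≠ 0 →
      e • β j = β j) :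
    ∃ R, IsInvariantRing p v s Γ α η R ∧ IsVariety (str R) ∧
      ∃ (Y : Scheme.{u}) (π : Y ⟶ Spec (CommRingCat.of R)),
        AlgebraicGeometry.IsIntegral Y ∧ AlgebraicGeometry.IsProper π ∧
        AlgebraicGeometry.Smooth (π ≫ str R) ∧
        ∃ U : (Spec (CommRingCat.of R)).Opens,
          Dense (U : Set (Spec (CommRingCat.of R))) ∧ IsIso (π ∣_ U) := by
  classical
  have _ : Fintype Λ := Fintype.ofFinite Λ
  let R : Subalgebra k (MvPolynomial (Fin n ⊕ Fin m) k) :=
    { carrier := {b | (∀ j, b ∈ Pool.Agent.Y177.Ga.frs (Pool.Agent.X229.RS.ct (v j)) (p ^ s j) ⊓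
        Pool.Agent.Y177.Ga.inv (Pool.Agent.X229.RS.ct (v j)) (Γ j)) ∧
        IsWeightedHomogeneous (Sum.elim α η) b 0}
      mul_mem' := fun ha hb => ⟨fun j => Subalgebra.mul_mem _ (ha.1 j) (hb.1 j), by
        have := ha.2.mul hb.2
        rwa [add_zero] at this⟩
      add_mem' := fun ha hb => ⟨fun j => Subalgebra.add_mem _ (ha.1 j) (hb.1 j),
        (weightedHomogeneousSubmodule k (Sum.elim α η) 0).add_mem ha.2 hb.2⟩
      algebraMap_mem' := fun a => ⟨fun j => Subalgebra.algebraMap_mem _ a,
        isWeightedHomogeneous_C _ a⟩ }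
  have hR : ∀ b, b ∈ R ↔ (∀ j, b ∈ Pool.Agent.Y177.Ga.frs (Pool.Agent.X229.RS.ct (v j)) (p ^ s j) ⊓
        Pool.Agent.Y177.Ga.inv (Pool.Agent.X229.RS.ct (v j)) (Γ j)) ∧
        IsWeightedHomogeneous (Sum.elim α η) b 0 := fun b => Iff.rfl
  obtain ⟨h1, h2⟩ := Pool.Agent.X229.RS.final v p s Γ α η β w hw l hl hv hV hvΛ hΓ R hR
  refine ⟨R, ?_, h1, h2⟩
  intro b
  rw [hR]
  refine and_congr ?_ Iff.rfl
  refine forall_congr' fun j => ?_
  refine and_congr Iff.rfl ?_
  refine forall₂_congr fun a _ => ?_
  rw [Pool.Agent.Y177.Ga.sg_apply]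
  rfl

end Pool.Agent.Results.MP_b525bf_ag.TranslationSchemes
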